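import Mathlib

/-!
Project PF (MP_b8862a_ag), block B3: the number of short roots.
-/

set_option linter.unusedSectionVars false

namespace PF

variable {E : Type*} [NormedAddCommGroup E] [InnerProductSpace ℝ E]

/-- A finite simply laced system of vectors of square length `2` in which all vectors have `u` neighbours. -/
structure SL (Ψ : Finset E) (u : ℕ) : Prop where
  two : ∀ g ∈ Ψ, inner ℝ g g = (2 : ℝ)
  int : ∀ g ∈ Ψ, ∀ d ∈ Ψ, ∃ k : ℤ, inner ℝ g d = (k : ℝ)
  sub : ∀ g ∈ Ψ, ∀ d ∈ Ψ, inner ℝ g d = (1 : ℝ) → g - d ∈ Ψ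
  neg : ∀ g ∈ Ψ, -g ∈ Ψ
  card : ∀ g ∈ Ψ, (Ψ.filter fun d => inner ℝ d g = (1 : ℝ)).card = u

namespace SL

variable {Ψ : Finset E} {u : ℕ} (H : SL Ψ u)
include H

theorem eq_of_two {g d : E} (hg : g ∈ Ψ) (hd : d ∈ Ψ) (h : inner ℝ g d = (2 : ℝ)) : g = d := by
  have h1 : inner ℝ (g - d) (g - d) = (0 : ℝ) := by
    rw [inner_sub_left, inner_sub_right, inner_sub_right, real_inner_comm g d, H.two g hg, H.two d hd, h]
    norm_num
  exact sub_eq_zero.1 (inner_self_eq_zero.1 h1)

theorem eq_of_neg_two {g d : E} (hg : g ∈ Ψ) (hd : d ∈ Ψ) (h : inner ℝ g d = (-2 : ℝ)) : g = -d := by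
  refine H.eq_of_two hg (H.neg d hd) ?_
  rw [inner_neg_right, h]
  norm_num

theorem cases {g d : E} (hg : g ∈ Ψ) (hd : d ∈ Ψ) :
    inner ℝ g d = (2 : ℝ) ∨ inner ℝ g d = (1 : ℝ) ∨ inner ℝ g d = (0 : ℝ) ∨ inner ℝ g d = (-1 : ℝ) ∨
      inner ℝ g d = (-2 : ℝ) := by
  obtain ⟨k, hk⟩ := H.int g hg d hd
  have h1 : (0 : ℝ) ≤ inner ℝ (g - d) (g - d) := real_inner_self_nonneg
  have h2 : (0 : ℝ) ≤ inner ℝ (g + d) (g + d) := real_inner_self_nonneg
  rw [inner_sub_left, inner_sub_right, inner_sub_right, real_inner_comm g d, H.two g hg, H.two d hd, hk] at h1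
  rw [inner_add_left, inner_add_right, inner_add_right, real_inner_comm g d, H.two g hg, H.two d hd, hk] at h2
  have h3 : (k : ℝ) ≤ 2 := by linarith
  have h4 : (-2 : ℝ) ≤ k := by linarith
  have h5 : k ≤ 2 := by exact_mod_cast h3
  have h6 : -2 ≤ k := by exact_mod_cast h4
  rw [hk]
  interval_cases k <;> norm_num

/-- the partition of `Ψ` -/
theorem card_split {g : E} (hg : g ∈ Ψ) :
    Ψ.card = 2 + 2 * u + (Ψ.filter fun d => inner ℝ d g = (0 : ℝ)).card := by
  classical
  have h1 : ∀ d ∈ Ψ, inner ℝ d g ∈ ({2, 1, 0, -1, -2} : Finset ℝ) := by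
    intro d hd
    rcases H.cases hd hg with h | h | h | h | h <;> rw [h] <;> simp
  rw [Finset.card_eq_sum_card_fiberwise (f := fun d => inner ℝ d g) (t := ({2, 1, 0, -1, -2} : Finset ℝ))
    (fun d hd => h1 d hd)]
  rw [Finset.sum_insert (by norm_num), Finset.sum_insert (by norm_num), Finset.sum_insert (by norm_num),
    Finset.sum_insert (by norm_num), Finset.sum_singleton]
  have e2 : (Ψ.filter fun d => inner ℝ d g = (2 : ℝ)) = {g} := by
    ext d
    simp only [Finset.mem_filter, Finset.mem_singleton]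
    exact ⟨fun h => H.eq_of_two h.1 hg h.2, fun h => by rw [h]; exact ⟨hg, H.two g hg⟩⟩
  have e3 : (Ψ.filter fun d => inner ℝ d g = (-2 : ℝ)) = {-g} := by
    ext d
    simp only [Finset.mem_filter, Finset.mem_singleton]
    exact ⟨fun h => H.eq_of_neg_two h.1 hg h.2, fun h => by
      rw [h]; exact ⟨H.neg g hg, by rw [inner_neg_left, H.two g hg]⟩⟩
  have e4 : (Ψ.filter fun d => inner ℝ d g = (-1 : ℝ)).card = (Ψ.filter fun d => inner ℝ d g = (1 : ℝ)).card := by
    refine Finset.card_nbij' (fun d => -d) (fun d => -d) ?_ ?_ (fun d _ => neg_neg d) (fun d _ => neg_neg d)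
    · intro d hd
      simp only [Finset.coe_filter, Set.mem_ofPred_eq] at hd ⊢
      exact ⟨H.neg d hd.1, by rw [inner_neg_left, hd.2]; norm_num⟩
    · intro d hd
      simp only [Finset.coe_filter, Set.mem_ofPred_eq] at hd ⊢
      exact ⟨H.neg d hd.1, by rw [inner_neg_left, hd.2]⟩
  rw [e2, e3, e4, H.card g hg, Finset.card_singleton, Finset.card_singleton]
  ring

/-- half of the other neighbours of a neighbour of `g` are orthogonal to `g` -/
theorem card_nb {g e : E} (hg : g ∈ Ψ) (he : e ∈ Ψ) (hge : inner ℝ e g = (1 : ℝ)) :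
    u = 2 + 2 * ((Ψ.filter fun d => inner ℝ d g = (0 : ℝ)).filter fun d => inner ℝ d e = (1 : ℝ)).card := by
  classical
  have h1 : ∀ d ∈ Ψ.filter (fun d => inner ℝ d e = (1 : ℝ)), inner ℝ d g ∈ ({2, 1, 0, -1} : Finset ℝ) := by
    intro d hd
    rw [Finset.mem_filter] at hd
    rcases H.cases hd.1 hg with h | h | h | h | h
    · rw [h]; simp
    · rw [h]; simp
    · rw [h]; simp
    · rw [h]; simp
    · exfalso
      have h2 := H.eq_of_neg_two hd.1 hg h
      have h3 := hd.2
      rw [h2, inner_neg_left, real_inner_comm, hge] at h3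
      norm_num at h3
  have h2 := Finset.card_eq_sum_card_fiberwise (f := fun d => inner ℝ d g) (t := ({2, 1, 0, -1} : Finset ℝ))
    (fun d hd => h1 d hd)
  rw [H.card e he, Finset.sum_insert (by norm_num), Finset.sum_insert (by norm_num), Finset.sum_insert (by norm_num),
    Finset.sum_singleton] at h2
  have e2 : ((Ψ.filter fun d => inner ℝ d e = (1 : ℝ)).filter fun d => inner ℝ d g = (2 : ℝ)) = {g} := by
    ext d
    simp only [Finset.mem_filter, Finset.mem_singleton]
    exact ⟨fun h => H.eq_of_two h.1.1 hg h.2, fun h => by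
      rw [h]; exact ⟨⟨hg, by rw [real_inner_comm]; exact hge⟩, H.two g hg⟩⟩
  have e3 : ((Ψ.filter fun d => inner ℝ d e = (1 : ℝ)).filter fun d => inner ℝ d g = (-1 : ℝ)) = {e - g} := by
    ext d
    simp only [Finset.mem_filter, Finset.mem_singleton]
    constructor
    · rintro ⟨⟨h3, h4⟩, h5⟩
      have h6 : e - d ∈ Ψ := H.sub e he d h3 (by rw [real_inner_comm]; exact h4)
      have h7 : inner ℝ (e - d) g = (2 : ℝ) := by rw [inner_sub_left, hge, h5]; norm_num
      rw [← H.eq_of_two h6 hg h7]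
      abel
    · intro h
      rw [h]
      refine ⟨⟨H.sub e he g hg hge, ?_⟩, ?_⟩
      · rw [inner_sub_left, H.two e he, real_inner_comm, hge]; norm_num
      · rw [inner_sub_left, hge, H.two g hg]; norm_num
  have e4 : ((Ψ.filter fun d => inner ℝ d e = (1 : ℝ)).filter fun d => inner ℝ d g = (1 : ℝ)).card =
      ((Ψ.filter fun d => inner ℝ d e = (1 : ℝ)).filter fun d => inner ℝ d g = (0 : ℝ)).card := by
    refine Finset.card_nbij' (fun d => e - d) (fun d => e - d) ?_ ?_ (fun d _ => sub_sub_cancel e d)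
      (fun d _ => sub_sub_cancel e d)
    · intro d hd
      simp only [Finset.coe_filter, Finset.mem_filter, Set.mem_ofPred_eq] at hd ⊢
      refine ⟨⟨H.sub e he d hd.1.1 (by rw [real_inner_comm]; exact hd.1.2), ?_⟩, ?_⟩
      · rw [inner_sub_left, H.two e he, hd.1.2]; norm_num
      · rw [inner_sub_left, hge, hd.2]; norm_num
    · intro d hd
      simp only [Finset.coe_filter, Finset.mem_filter, Set.mem_ofPred_eq] at hd ⊢
      refine ⟨⟨H.sub e he d hd.1.1 (by rw [real_inner_comm]; exact hd.1.2), ?_⟩, ?_⟩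
      · rw [inner_sub_left, H.two e he, hd.1.2]; norm_num
      · rw [inner_sub_left, hge, hd.2]; norm_num
  have e5 : ((Ψ.filter fun d => inner ℝ d e = (1 : ℝ)).filter fun d => inner ℝ d g = (0 : ℝ)) =
      ((Ψ.filter fun d => inner ℝ d g = (0 : ℝ)).filter fun d => inner ℝ d e = (1 : ℝ)) := Finset.filter_comm ..
  rw [e2, e3, e4, e5, Finset.card_singleton, Finset.card_singleton] at h2
  omega

/-- the double count of the common neighbours -/
theorem sum_common {g : E} (hg : g ∈ Ψ) :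
    u * u = 2 * u + 2 * ∑ d ∈ Ψ.filter (fun d => inner ℝ d g = (0 : ℝ)),
      ((Ψ.filter fun e => inner ℝ e g = (1 : ℝ)).filter fun e => inner ℝ e d = (1 : ℝ)).card := by
  classical
  have h1 : ∑ e ∈ Ψ.filter (fun e => inner ℝ e g = (1 : ℝ)),
      ((Ψ.filter fun d => inner ℝ d g = (0 : ℝ)).filter fun d => inner ℝ d e = (1 : ℝ)).card =
      ∑ d ∈ Ψ.filter (fun d => inner ℝ d g = (0 : ℝ)),
      ((Ψ.filter fun e => inner ℝ e g = (1 : ℝ)).filter fun e => inner ℝ e d = (1 : ℝ)).card := by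
    have h2 := Finset.sum_card_bipartiteAbove_eq_sum_card_bipartiteBelow
      (s := Ψ.filter fun e => inner ℝ e g = (1 : ℝ)) (t := Ψ.filter fun d => inner ℝ d g = (0 : ℝ))
      (fun e d => inner ℝ e d = (1 : ℝ))
    rw [Finset.sum_congr rfl (fun d _ => rfl)] at h2
    refine Eq.trans (Finset.sum_congr rfl fun e _ => ?_) h2
    unfold Finset.bipartiteAbove
    congr 1
    ext d
    simp only [Finset.mem_filter, real_inner_comm]
  rw [← h1]
  have h3 : ∀ e ∈ Ψ.filter (fun e => inner ℝ e g = (1 : ℝ)),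
      2 + 2 * ((Ψ.filter fun d => inner ℝ d g = (0 : ℝ)).filter fun d => inner ℝ d e = (1 : ℝ)).card = u := by
    intro e he
    rw [Finset.mem_filter] at he
    exact (H.card_nb hg he.1 he.2).symm
  have h4 := Finset.sum_congr rfl h3
  rw [Finset.sum_add_distrib, ← Finset.mul_sum, Finset.sum_const, Finset.sum_const, H.card g hg, smul_eq_mul,
    smul_eq_mul] at h4
  omega

omit H in
/-- the common neighbours -/
noncomputable def CN (Ψ : Finset E) (g d : E) : Finset E :=
  (Ψ.filter fun e => inner ℝ e g = (1 : ℝ)).filter fun e => inner ℝ e d = (1 : ℝ)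

omit H in
theorem mem_CN {g d e : E} : e ∈ CN Ψ g d ↔ e ∈ Ψ ∧ inner ℝ e g = (1 : ℝ) ∧ inner ℝ e d = (1 : ℝ) := by
  rw [CN, Finset.mem_filter, Finset.mem_filter, and_assoc]

omit H in
/-- the vector to the common neighbour -/
noncomputable def fv (g d c : E) : E := c - (1 / 2 : ℝ) • (g + d)

variable {g d : E} (hg : g ∈ Ψ) (hd : d ∈ Ψ) (hgd : inner ℝ d g = (0 : ℝ))
include hg hd hgd

theorem star_mem {c : E} (hc : c ∈ CN Ψ g d) : g + d - c ∈ CN Ψ g d := by
  rw [mem_CN] at hc ⊢
  obtain ⟨h1, h2, h3⟩ := hc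
  have h4 : c - g ∈ Ψ := H.sub c h1 g hg h2
  have h5 : inner ℝ (c - g) d = (1 : ℝ) := by
    rw [inner_sub_left, h3, real_inner_comm, hgd]; norm_num
  have h6 := H.neg _ (H.sub _ h4 d hd h5)
  have h7 : g + d - c = -(c - g - d) := by abel
  refine ⟨by rw [h7]; exact h6, ?_, ?_⟩
  · rw [inner_sub_left, inner_add_left, H.two g hg, hgd, h2]; norm_num
  · rw [inner_sub_left, inner_add_left, H.two d hd, real_inner_comm, hgd, h3]; norm_num

omit H hg hd hgd in
theorem fv_star (c : E) : fv g d (g + d - c) = -fv g d c := by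
  have h : (g + d) = (1 / 2 : ℝ) • (g + d) + (1 / 2 : ℝ) • (g + d) := by
    rw [← add_smul]; norm_num
  unfold fv
  nth_rewrite 1 [h]
  abel

theorem inner_fv {c c' : E} (hc : c ∈ CN Ψ g d) (hc' : c' ∈ CN Ψ g d) :
    inner ℝ (fv g d c) (fv g d c') = inner ℝ c c' - (1 : ℝ) := by
  rw [mem_CN] at hc hc'
  unfold fv
  rw [inner_sub_left, inner_sub_right, inner_sub_right, inner_smul_left, inner_smul_right, inner_smul_left,
    inner_smul_right, inner_add_right, hc.2.1, hc.2.2, inner_add_left, inner_add_right, inner_add_left,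
    inner_add_left, real_inner_comm c' g, real_inner_comm c' d, hc'.2.1, hc'.2.2, H.two g hg, H.two d hd, hgd,
    real_inner_comm d g, hgd]
  norm_num

theorem fv_orth {c c' : E} (hc : c ∈ CN Ψ g d) (hc' : c' ∈ CN Ψ g d) (h1 : c' ≠ c) (h2 : c' ≠ g + d - c) :
    inner ℝ (fv g d c) (fv g d c') = (0 : ℝ) := by
  have h3 := H.inner_fv hg hd hgd hc hc'
  have h4 := H.inner_fv hg hd hgd hc hc
  have h5 := H.inner_fv hg hd hgd hc' hc'
  have hcm := (mem_CN.1 hc).1
  have hcm' := (mem_CN.1 hc').1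
  rw [H.two c hcm] at h4
  rw [H.two c' hcm'] at h5
  have h6 : inner ℝ (fv g d c + fv g d c') (fv g d c + fv g d c') = 2 + 2 * (inner ℝ c c' - (1 : ℝ)) := by
    rw [inner_add_left, inner_add_right, inner_add_right, real_inner_comm (fv g d c) (fv g d c'), h3, h4, h5]
    ring
  have h7 : (0 : ℝ) ≤ inner ℝ (fv g d c + fv g d c') (fv g d c + fv g d c') := real_inner_self_nonneg
  rcases H.cases hcm hcm' with h | h | h | h | h
  · exact absurd (H.eq_of_two hcm hcm' h).symm h1
  · rw [h3, h]; norm_num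
  · exfalso
    rw [h] at h6
    have h8 : fv g d c + fv g d c' = 0 := inner_self_eq_zero.1 (h6.trans (by norm_num))
    apply h2
    unfold fv at h8
    have h9 : (g + d) = (1 / 2 : ℝ) • (g + d) + (1 / 2 : ℝ) • (g + d) := by
      rw [← add_smul]; norm_num
    have h10 : c - (1 / 2 : ℝ) • (g + d) + (c' - (1 / 2 : ℝ) • (g + d)) = c + c' - (g + d) := by
      nth_rewrite 3 [h9]
      abel
    rw [h10] at h8
    rw [eq_sub_iff_add_eq, ← sub_eq_zero, ← h8]
    abel
  · exfalso
    rw [h6, h] at h7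
    norm_num at h7
  · exfalso
    rw [h6, h] at h7
    norm_num at h7

/-- the projection to the span of the vectors `fv` -/
theorem sum_fv {e c : E} (hc : c ∈ CN Ψ g d) :
    inner ℝ (∑ c' ∈ CN Ψ g d, (inner ℝ e (fv g d c') : ℝ) • fv g d c') (fv g d c) =
      2 * (inner ℝ e (fv g d c) : ℝ) := by
  classical
  have hs := H.star_mem hg hd hgd hc
  have hne : c ≠ g + d - c := by
    intro h
    have h1 := fv_star (g := g) (d := d) c
    rw [← h] at h1
    have h2 := H.inner_fv hg hd hgd hc hc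
    rw [H.two c (mem_CN.1 hc).1] at h2
    have h3 : inner ℝ (fv g d c) (fv g d c) = -inner ℝ (fv g d c) (fv g d c : E) := by
      nth_rewrite 1 [h1]
      rw [inner_neg_left]
    rw [h2] at h3
    norm_num at h3
  have h11 : inner ℝ (fv g d c) (fv g d c) = (1 : ℝ) := by
    rw [H.inner_fv hg hd hgd hc hc, H.two c (mem_CN.1 hc).1]; norm_num
  rw [sum_inner, Finset.sum_eq_add c (g + d - c) hne ?_ (fun h => absurd hc h) (fun h => absurd hs h)]
  · rw [fv_star, inner_smul_left, inner_smul_left, inner_neg_right, inner_neg_left, h11]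
    simp only [conj_trivial]
    ring
  · rintro c' hc' ⟨h1, h2⟩
    rw [inner_smul_left, real_inner_comm (fv g d c) (fv g d c'), H.fv_orth hg hd hgd hc hc' h1 h2, mul_zero]

theorem fv_g {c : E} (hc : c ∈ CN Ψ g d) : inner ℝ (fv g d c) g = (0 : ℝ) := by
  rw [mem_CN] at hc
  unfold fv
  rw [inner_sub_left, inner_smul_left, inner_add_left, hc.2.1, H.two g hg, hgd]
  norm_num

theorem fv_d {c : E} (hc : c ∈ CN Ψ g d) : inner ℝ (fv g d c) d = (0 : ℝ) := by
  rw [mem_CN] at hc
  unfold fv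
  rw [inner_sub_left, inner_smul_left, inner_add_left, hc.2.2, H.two d hd, real_inner_comm, hgd]
  norm_num

/-- a neighbour of `g` orthogonal to `d` bounds the number of common neighbours -/
theorem card_CN_le {e : E} (he : e ∈ Ψ) (heg : inner ℝ e g = (1 : ℝ)) (hed : inner ℝ e d = (0 : ℝ)) :
    (CN Ψ g d).card ≤ 12 := by
  classical
  set S : ℝ := ∑ c ∈ CN Ψ g d, (inner ℝ e (fv g d c)) ^ 2 with hS
  set v : E := ∑ c' ∈ CN Ψ g d, (inner ℝ e (fv g d c') : ℝ) • fv g d c' with hv
  have h1 : ∀ c ∈ CN Ψ g d, (1 / 4 : ℝ) ≤ (inner ℝ e (fv g d c)) ^ 2 := by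
    intro c hc
    have h2 : inner ℝ e (fv g d c) = inner ℝ e c - (1 / 2 : ℝ) := by
      unfold fv
      rw [inner_sub_right, inner_smul_right, inner_add_right, heg, hed]
      norm_num
    obtain ⟨k, hk⟩ := H.int e he c (mem_CN.1 hc).1
    rw [h2, hk]
    have h3 : (0 : ℤ) ≤ k * (k - 1) := by
      rcases le_or_gt k 0 with h | h
      · nlinarith
      · nlinarith
    have h4 : (0 : ℝ) ≤ (k : ℝ) * ((k : ℝ) - 1) := by exact_mod_cast h3
    nlinarith
  have h2 : ((CN Ψ g d).card : ℝ) * (1 / 4) ≤ S := by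
    rw [hS, ← nsmul_eq_mul]
    exact Finset.card_nsmul_le_sum _ _ _ h1
  have h3 : inner ℝ v e = S := by
    rw [hv, sum_inner, hS]
    refine Finset.sum_congr rfl fun c _ => ?_
    rw [inner_smul_left, real_inner_comm e (fv g d c)]
    simp only [conj_trivial]
    ring
  have h4 : inner ℝ v v = 2 * S := by
    nth_rewrite 2 [hv]
    rw [inner_sum, hS, Finset.mul_sum]
    refine Finset.sum_congr rfl fun c hc => ?_
    rw [inner_smul_right, H.sum_fv hg hd hgd hc]
    ring
  have h5 : inner ℝ v g = (0 : ℝ) := by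
    rw [hv, sum_inner]
    refine Finset.sum_eq_zero fun c hc => ?_
    rw [inner_smul_left, H.fv_g hg hd hgd hc, mul_zero]
  have h6 : (0 : ℝ) ≤ inner ℝ (e - (1 / 2 : ℝ) • v - (1 / 2 : ℝ) • g) (e - (1 / 2 : ℝ) • v - (1 / 2 : ℝ) • g) :=
    real_inner_self_nonneg
  simp only [inner_sub_left, inner_sub_right, inner_smul_left, inner_smul_right, conj_trivial] at h6
  rw [real_inner_comm v e, h3, h4, h5, real_inner_comm v g, h5, real_inner_comm e g, heg, H.two g hg,
    H.two e he] at h6
  have h7 : S ≤ 3 := by linarith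
  have h8 : ((CN Ψ g d).card : ℝ) ≤ 12 := by linarith
  exact_mod_cast h8

/-- if there are more than `12` common neighbours, they are half of the neighbours -/
theorem card_CN (h13 : 12 < (CN Ψ g d).card) : u = 2 * (CN Ψ g d).card := by
  classical
  have h1 : ∀ e ∈ Ψ.filter (fun e => inner ℝ e g = (1 : ℝ)), inner ℝ e d ∈ ({1, -1} : Finset ℝ) := by
    intro e he
    rw [Finset.mem_filter] at he
    rcases H.cases he.1 hd with h | h | h | h | h
    · exfalso
      have h2 := he.2
      rw [H.eq_of_two he.1 hd h, hgd] at h2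
      norm_num at h2
    · rw [h]; simp
    · exact absurd (H.card_CN_le hg hd hgd he.1 he.2 h) (by omega)
    · rw [h]; simp
    · exfalso
      have h2 := he.2
      rw [H.eq_of_neg_two he.1 hd h, inner_neg_left, hgd] at h2
      norm_num at h2
  have h2 := Finset.card_eq_sum_card_fiberwise (f := fun e => inner ℝ e d) (t := ({1, -1} : Finset ℝ))
    (fun e he => h1 e he)
  rw [H.card g hg, Finset.sum_insert (by norm_num), Finset.sum_singleton] at h2
  have e4 : ((Ψ.filter fun e => inner ℝ e g = (1 : ℝ)).filter fun e => inner ℝ e d = (-1 : ℝ)).card =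
      (CN Ψ g d).card := by
    refine Finset.card_nbij' (fun e => g - e) (fun e => g - e) ?_ ?_ (fun e _ => sub_sub_cancel g e)
      (fun e _ => sub_sub_cancel g e)
    · intro e he
      simp only [CN, Finset.coe_filter, Finset.mem_filter, Set.mem_ofPred_eq] at he ⊢
      refine ⟨⟨H.sub g hg e he.1.1 (by rw [real_inner_comm]; exact he.1.2), ?_⟩, ?_⟩
      · rw [inner_sub_left, H.two g hg, he.1.2]; norm_num
      · rw [inner_sub_left, real_inner_comm, hgd, he.2]; norm_num
    · intro e he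
      simp only [CN, Finset.coe_filter, Finset.mem_filter, Set.mem_ofPred_eq] at he ⊢
      refine ⟨⟨H.sub g hg e he.1.1 (by rw [real_inner_comm]; exact he.1.2), ?_⟩, ?_⟩
      · rw [inner_sub_left, H.two g hg, he.1.2]; norm_num
      · rw [inner_sub_left, real_inner_comm, hgd, he.2]; norm_num
  rw [e4] at h2
  have e5 : ((Ψ.filter fun e => inner ℝ e g = (1 : ℝ)).filter fun e => inner ℝ e d = (1 : ℝ)).card =
      (CN Ψ g d).card := rfl
  rw [e5] at h2
  omega

/-- a vector orthogonal to `g` and `d` is a difference of common neighbours in at most two ways -/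
theorem card_fibre {x : E} (hx : x ∈ Ψ) (hxg : inner ℝ x g = (0 : ℝ)) (hxd : inner ℝ x d = (0 : ℝ)) :
    ((CN Ψ g d).filter fun c => inner ℝ x c = (1 : ℝ)).card ≤ 2 := by
  classical
  set T := (CN Ψ g d).filter fun c => inner ℝ x c = (1 : ℝ) with hT
  have hx1 : ∀ c ∈ T, inner ℝ x (fv g d c) = (1 : ℝ) := by
    intro c hc
    rw [hT, Finset.mem_filter] at hc
    unfold fv
    rw [inner_sub_right, inner_smul_right, inner_add_right, hxg, hxd, hc.2]
    norm_num
  have h1 : ∀ c ∈ T, inner ℝ (∑ c' ∈ T, fv g d c') (fv g d c) = (1 : ℝ) := by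
    intro c hc
    have hcC := (Finset.mem_filter.1 hc).1
    rw [sum_inner, Finset.sum_eq_single c ?_ (fun h => absurd hc h)]
    · rw [H.inner_fv hg hd hgd hcC hcC, H.two c (mem_CN.1 hcC).1]; norm_num
    · intro c' hc' hne
      rw [real_inner_comm]
      refine H.fv_orth hg hd hgd hcC (Finset.mem_filter.1 hc').1 hne ?_
      intro h
      have h2 := hx1 c' hc'
      rw [h, fv_star, inner_neg_right, hx1 c hc] at h2
      norm_num at h2
  have h2 : inner ℝ (∑ c' ∈ T, fv g d c') (∑ c' ∈ T, fv g d c') = (T.card : ℝ) := by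
    rw [inner_sum, Finset.sum_congr rfl h1]
    simp
  have h3 : inner ℝ x (∑ c' ∈ T, fv g d c') = (T.card : ℝ) := by
    rw [inner_sum, Finset.sum_congr rfl hx1]
    simp
  have h4 : (0 : ℝ) ≤ inner ℝ (x - ∑ c' ∈ T, fv g d c') (x - ∑ c' ∈ T, fv g d c') := real_inner_self_nonneg
  rw [inner_sub_left, inner_sub_right, inner_sub_right, h2, h3,
    real_inner_comm x (∑ c' ∈ T, fv g d c'), h3, H.two x hx] at h4
  have h5 : (T.card : ℝ) ≤ 2 := by linarith
  exact_mod_cast h5

/-- the number of vectors orthogonal to `g` -/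
theorem card_orth (h13 : 12 < (CN Ψ g d).card) : (CN Ψ g d).card * ((CN Ψ g d).card - 2) ≤
    2 * (Ψ.filter fun x => inner ℝ x g = (0 : ℝ)).card := by
  classical
  set C := CN Ψ g d with hC
  set R : Finset (E × E) := (C ×ˢ C).filter fun p => inner ℝ p.1 p.2 = (1 : ℝ) with hR
  have h1 : C.card * (C.card - 2) ≤ R.card := by
    have h2 : ∀ c ∈ C, C.card - 2 ≤ (C.filter fun c' => inner ℝ c c' = (1 : ℝ)).card := by
      intro c hc
      have h3 : C \ {c, g + d - c} ⊆ C.filter fun c' => inner ℝ c c' = (1 : ℝ) := by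
        intro c' hc'
        rw [Finset.mem_sdiff, Finset.mem_insert, Finset.mem_singleton, not_or] at hc'
        rw [Finset.mem_filter]
        refine ⟨hc'.1, ?_⟩
        have h4 := H.fv_orth hg hd hgd hc hc'.1 hc'.2.1 hc'.2.2
        rw [H.inner_fv hg hd hgd hc hc'.1] at h4
        linarith
      have h4 := Finset.card_le_card h3
      have h5 := Finset.le_card_sdiff ({c, g + d - c} : Finset E) C
      have h6 : ({c, g + d - c} : Finset E).card ≤ 2 := Finset.card_le_two
      omega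
    have h3 : R.card = ∑ c ∈ C, (C.filter fun c' => inner ℝ c c' = (1 : ℝ)).card := by
      rw [hR, Finset.card_filter, Finset.sum_product]
      refine Finset.sum_congr rfl fun c _ => ?_
      rw [Finset.card_filter]
    rw [h3, ← smul_eq_mul]
    exact Finset.card_nsmul_le_sum _ _ _ h2
  refine h1.trans ?_
  refine Finset.card_le_mul_card_image_of_maps_to (f := fun p : E × E => p.1 - p.2)
    (t := Ψ.filter fun x => inner ℝ x g = (0 : ℝ)) ?_ 2 ?_
  · intro p hp
    rw [hR, Finset.mem_filter, Finset.mem_product] at hp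
    rw [Finset.mem_filter]
    have h2 := mem_CN.1 hp.1.1
    have h3 := mem_CN.1 hp.1.2
    refine ⟨H.sub _ h2.1 _ h3.1 hp.2, ?_⟩
    rw [inner_sub_left, h2.2.1, h3.2.1]; norm_num
  · intro x hx
    rw [Finset.mem_filter] at hx
    rcases (R.filter fun p => p.1 - p.2 = x).eq_empty_or_nonempty with h0 | ⟨p, hp⟩
    · rw [h0]; simp
    · rw [Finset.mem_filter, hR, Finset.mem_filter, Finset.mem_product] at hp
      have h2 := mem_CN.1 hp.1.1.1
      have h3 := mem_CN.1 hp.1.1.2
      have hxd : inner ℝ x d = (0 : ℝ) := by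
        rw [← hp.2, inner_sub_left, h2.2.2, h3.2.2]; norm_num
      refine le_trans ?_ (H.card_fibre hg hd hgd hx.1 hx.2 hxd)
      refine Finset.card_le_card_of_injOn (fun p => p.1) ?_ ?_
      · intro q hq
        simp only [Finset.coe_filter, Set.mem_ofPred_eq, hR, Finset.mem_filter, Finset.mem_product] at hq ⊢
        refine ⟨hq.1.1.1, ?_⟩
        rw [← hq.2, inner_sub_left, H.two _ (mem_CN.1 hq.1.1.1).1, real_inner_comm, hq.1.2]
        norm_num
      · intro q hq q' hq' h
        simp only [Finset.coe_filter, Set.mem_ofPred_eq] at hq hq'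
        have h4 : q.1 = q'.1 := h
        have h5 : q.2 = q'.2 := by
          have h6 : q.1 - q.2 = q'.1 - q'.2 := hq.2.trans hq'.2.symm
          rw [h4] at h6
          exact sub_right_injective h6
        exact Prod.ext h4 h5

omit hg hd hgd in
/-- **B3**: the number of short roots. -/
theorem card_ge (hne : Ψ.Nonempty) : 2 + 2 * (u : ℝ) + (u : ℝ) * ((u : ℝ) - 2) / 24 ≤ (Ψ.card : ℝ) := by
  classical
  obtain ⟨g, hg⟩ := hne
  have h1 := H.card_split hg
  have h2 := H.sum_common hg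
  set O := Ψ.filter fun d => inner ℝ d g = (0 : ℝ) with hO
  have h1' : (Ψ.card : ℝ) = 2 + 2 * u + O.card := by rw [h1]; push_cast; ring
  by_cases h : ∀ d ∈ O, (CN Ψ g d).card ≤ 12
  · have h3 : ∑ d ∈ O, (CN Ψ g d).card ≤ O.card * 12 := by
      rw [← smul_eq_mul]
      exact Finset.sum_le_card_nsmul _ _ _ h
    have h4 : u * u ≤ 2 * u + 2 * (O.card * 12) := by
      rw [h2]
      exact Nat.add_le_add_left (Nat.mul_le_mul_left 2 h3) _
    have h5 : (u : ℝ) * u ≤ 2 * u + 2 * (O.card * 12) := by exact_mod_cast h4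
    rw [h1']
    linarith
  · push Not at h
    obtain ⟨d, hdO, h13⟩ := h
    rw [hO, Finset.mem_filter] at hdO
    have h3 := H.card_orth hg hdO.1 hdO.2 h13
    have h4 := H.card_CN hg hdO.1 hdO.2 h13
    set c := (CN Ψ g d).card with hc
    obtain ⟨m, hm⟩ : ∃ m, c = m + 2 := ⟨c - 2, by omega⟩
    rw [hm, Nat.add_sub_cancel, ← hO] at h3
    have h5 : ((m : ℝ) + 2) * m ≤ 2 * O.card := by exact_mod_cast h3
    have h6 : (u : ℝ) = 2 * (m + 2) := by rw [h4, hm]; push_cast; ring
    have h7 : (11 : ℝ) ≤ m := by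
      have : 11 ≤ m := by omega
      exact_mod_cast this
    rw [h1', h6]
    nlinarith

end SL

end PF
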