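import Mathlib

/-!
Project PF (MP_b8862a_ag), block B4: the number of weights in a plane.
-/

set_option linter.unusedSectionVars false

namespace PF

variable {E : Type*} [NormedAddCommGroup E] [InnerProductSpace ℝ E]

/-- the count when the larger pairing is with `c` -/
theorem card_plane {X : Finset E} {x c d : E} {y z : ℕ} (hc : inner ℝ c c = (2 : ℝ)) (hd : inner ℝ d d = (2 : ℝ))
    (hcd : inner ℝ c d = (-1 : ℝ)) (hx : x ∈ X)
    (hstc : ∀ x ∈ X, ∀ j : ℕ, (j : ℝ) ≤ inner ℝ x c → x - (j : ℝ) • c ∈ X)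
    (hstd : ∀ x ∈ X, ∀ j : ℕ, (j : ℝ) ≤ inner ℝ x d → x - (j : ℝ) • d ∈ X)
    (hy : inner ℝ x d = (y : ℝ)) (hz : inner ℝ x c = (z : ℝ)) :
    (z + 1) * (2 * y + 2 + z) ≤ 2 * X.card := by
  classical
  have hdc : inner ℝ d c = (-1 : ℝ) := by rw [real_inner_comm]; exact hcd
  set T : Finset (Σ _ : ℕ, ℕ) := (Finset.range (z + 1)).sigma fun j => Finset.range (y + j + 1) with hT
  have h1 : 2 * T.card = (z + 1) * (2 * y + 2 + z) := by
    rw [hT, Finset.card_sigma]
    simp only [Finset.card_range]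
    have : ∀ m : ℕ, 2 * ∑ j ∈ Finset.range (m + 1), (y + j + 1) = (m + 1) * (2 * y + 2 + m) := by
      intro m
      induction m with
      | zero => simp; ring
      | succ m ih =>
        rw [Finset.sum_range_succ, mul_add, ih]
        ring
    exact this z
  rw [← h1]
  refine Nat.mul_le_mul_left 2 ?_
  refine Finset.card_le_card_of_injOn (fun p : Σ _ : ℕ, ℕ => x - (p.1 : ℝ) • c - (p.2 : ℝ) • d) ?_ ?_
  · rintro ⟨j, i⟩ hp
    have hp' : j < z + 1 ∧ i < y + j + 1 := by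
      have := hp
      rw [hT] at this
      simpa using this
    have h2 : x - (j : ℝ) • c ∈ X := by
      refine hstc x hx j ?_
      rw [hz]
      exact_mod_cast Nat.lt_succ_iff.1 hp'.1
    refine hstd _ h2 i ?_
    rw [inner_sub_left, inner_smul_left, hy, hcd]
    simp only [conj_trivial]
    have : (i : ℝ) ≤ (y : ℝ) + j := by exact_mod_cast Nat.lt_succ_iff.1 hp'.2
    linarith
  · rintro ⟨j, i⟩ - ⟨j', i'⟩ - h
    have h2 : ((j : ℝ) - j') • c + ((i : ℝ) - i') • d = 0 := by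
      have h3 : x - (j : ℝ) • c - (i : ℝ) • d = x - (j' : ℝ) • c - (i' : ℝ) • d := h
      have h4 : ((j : ℝ) - j') • c + ((i : ℝ) - i') • d =
          (x - (j' : ℝ) • c - (i' : ℝ) • d) - (x - (j : ℝ) • c - (i : ℝ) • d) := by
        rw [sub_smul, sub_smul]
        abel
      rw [h4, h3, sub_self]
    have h3 : inner ℝ (((j : ℝ) - j') • c + ((i : ℝ) - i') • d) c = (0 : ℝ) := by rw [h2, inner_zero_left]
    have h4 : inner ℝ (((j : ℝ) - j') • c + ((i : ℝ) - i') • d) d = (0 : ℝ) := by rw [h2, inner_zero_left]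
    rw [inner_add_left, inner_smul_left, inner_smul_left, hc, hdc] at h3
    rw [inner_add_left, inner_smul_left, inner_smul_left, hd, hcd] at h4
    simp only [conj_trivial] at h3 h4
    have h5 : (j : ℝ) = j' := by linarith
    have h6 : (i : ℝ) = i' := by linarith
    have h7 : j = j' := by exact_mod_cast h5
    have h8 : i = i' := by exact_mod_cast h6
    rw [h7, h8]

/-- **B4**: many weights when the pairing with a short root is large. -/
theorem card_B4 {X Ψ : Finset E} (hint : ∀ a ∈ Ψ, ∀ x ∈ X, ∃ k : ℤ, inner ℝ x a = (k : ℝ))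
    (hstr : ∀ a ∈ Ψ, ∀ x ∈ X, ∀ j : ℕ, (j : ℝ) ≤ inner ℝ x a → x - (j : ℝ) • a ∈ X) {A : ℝ}
    (hA : ∀ x ∈ X, ∀ a ∈ Ψ, inner ℝ x a ≤ A) {x g d : E} (hx : x ∈ X) (hd : d ∈ Ψ)
    (hgd' : g - d ∈ Ψ) (hxg : inner ℝ x g = A) (hg2 : inner ℝ g g = (2 : ℝ)) (hd2 : inner ℝ d d = (2 : ℝ))
    (hgd : inner ℝ g d = (1 : ℝ)) : (A + 2) * (3 * A + 4) ≤ 8 * (X.card : ℝ) := by
  have key : ∀ c d : E, c ∈ Ψ → d ∈ Ψ → c + d = g → inner ℝ c c = (2 : ℝ) → inner ℝ d d = (2 : ℝ) →
      inner ℝ c d = (-1 : ℝ) → (inner ℝ x d : ℝ) ≤ inner ℝ x c → (A + 2) * (3 * A + 4) ≤ 8 * (X.card : ℝ) := by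
    intro c d hc hd hcdg hc2 hd2 hcd hle
    have h1 : (inner ℝ x c : ℝ) + inner ℝ x d = A := by rw [← inner_add_right, hcdg, hxg]
    have h2 : (0 : ℝ) ≤ inner ℝ x d := by
      have := hA x hx c hc
      linarith
    obtain ⟨k, hk⟩ := hint d hd x hx
    obtain ⟨l, hl⟩ := hint c hc x hx
    have h3 : (0 : ℤ) ≤ k := by
      have : (0 : ℝ) ≤ k := by rw [← hk]; exact h2
      exact_mod_cast this
    have h4 : (0 : ℤ) ≤ l := by
      have : (0 : ℝ) ≤ l := by rw [← hl]; linarith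
      exact_mod_cast this
    obtain ⟨y, rfl⟩ := Int.eq_ofNat_of_zero_le h3
    obtain ⟨z, rfl⟩ := Int.eq_ofNat_of_zero_le h4
    have h5 := card_plane (y := y) (z := z) hc2 hd2 hcd hx (hstr c hc) (hstr d hd) (by rw [hk]; norm_cast)
      (by rw [hl]; norm_cast)
    have h6 : ((z : ℝ) + 1) * (2 * y + 2 + z) ≤ 2 * (X.card : ℝ) := by exact_mod_cast h5
    have hk' : inner ℝ x d = (y : ℝ) := by rw [hk]; norm_cast
    have hl' : inner ℝ x c = (z : ℝ) := by rw [hl]; norm_cast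
    rw [hk', hl'] at h1 hle
    have hy0 : (0 : ℝ) ≤ y := Nat.cast_nonneg y
    have e1 : A = z + y := by linarith
    rw [e1]
    nlinarith [mul_nonneg (sub_nonneg.2 hle) hy0]
  have e1 : inner ℝ (g - d) d = (-1 : ℝ) := by rw [inner_sub_left, hgd, hd2]; norm_num
  have e2 : inner ℝ (g - d) (g - d) = (2 : ℝ) := by
    rw [inner_sub_left, inner_sub_right, inner_sub_right, hg2, hd2, real_inner_comm g d, hgd]; norm_num
  rcases le_total (inner ℝ x d : ℝ) (inner ℝ x (g - d)) with h | h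
  · exact key (g - d) d hgd' hd (sub_add_cancel g d) e2 hd2 e1 h
  · exact key d (g - d) hd hgd' (by abel) hd2 e2 (by rw [real_inner_comm]; exact e1) h

end PF
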